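import Mathlib
import Pool.Agent.Helper47.Grothendieck

set_option autoImplicit false

open Finset

namespace Pool.Agent.Results.MP_20ef18_an.LIsBanachAlgebra

open Pool.Agent.Helper47.Grothendieck

/-- The norm of the matrix `γ` in the injective tensor product of `ℓ¹` with itself: the supremum of
`|∑ γ_{mk} x_m y_k|` over all sequences bounded by `1` (and all finite square truncations of the
sum; since `x`, `y` may vanish off finite sets this covers all finitely supported `x`, `y`). -/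
noncomputable def injNorm (γ : ℕ → ℕ → ℂ) : ENNReal :=
  ⨆ (N : ℕ) (x : ℕ → ℂ) (y : ℕ → ℂ) (_ : ∀ m, ‖x m‖ ≤ 1) (_ : ∀ k, ‖y k‖ ≤ 1),
    ENNReal.ofReal ‖∑ m ∈ range N, ∑ k ∈ range N, γ m k * x m * y k‖

/-- The matrix `γ` represents the function `φ` on the open unit disc: `φ` is the sum of the power
series whose `n`-th coefficient is `∑_{m+k=n} γ_{mk}`. -/
def Represents (γ : ℕ → ℕ → ℂ) (φ : ℂ → ℂ) : Prop :=
  ∀ z : ℂ, ‖z‖ < 1 → HasSum (fun n => (∑ p ∈ antidiagonal n, γ p.1 p.2) * z ^ n) (φ z)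

/-- The norm of `𝓛`; `φ` belongs to `𝓛` iff it is finite. -/
noncomputable def normL (φ : ℂ → ℂ) : ENNReal :=
  ⨅ (γ : ℕ → ℕ → ℂ) (_ : Represents γ φ), injNorm γ

/-- Convolution of matrices. -/
def matConv (γ δ : ℕ → ℕ → ℂ) (m k : ℕ) : ℂ :=
  ∑ p ∈ antidiagonal m, ∑ q ∈ antidiagonal k, γ p.1 q.1 * δ p.2 q.2

lemma le_injNorm (γ : ℕ → ℕ → ℂ) (N : ℕ) (x y : ℕ → ℂ) (hx : ∀ m, ‖x m‖ ≤ 1)
    (hy : ∀ k, ‖y k‖ ≤ 1) :
    ENNReal.ofReal ‖∑ m ∈ range N, ∑ k ∈ range N, γ m k * x m * y k‖ ≤ injNorm γ := by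
  unfold injNorm
  refine le_iSup_of_le N ?_
  refine le_iSup_of_le x ?_
  refine le_iSup_of_le y ?_
  refine le_iSup_of_le hx ?_
  exact le_iSup_of_le hy le_rfl

lemma BB_of_injNorm (γ : ℕ → ℕ → ℂ) (hγ : injNorm γ ≠ ⊤) (N : ℕ) :
    BB (fun (i j : Fin N) => γ i j) (injNorm γ).toReal := by
  intro s t hs ht
  set x : ℕ → ℂ := fun m => if h : m < N then s ⟨m, h⟩ else 0 with hx
  set y : ℕ → ℂ := fun m => if h : m < N then t ⟨m, h⟩ else 0 with hy
  have h1 := le_injNorm γ N x y (fun m => by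
      simp only [hx]; split_ifs
      · exact hs _
      · simp) (fun m => by
      simp only [hy]; split_ifs
      · exact ht _
      · simp)
  have h2 : ∑ m ∈ range N, ∑ k ∈ range N, γ m k * x m * y k =
      ∑ i : Fin N, ∑ j : Fin N, γ i j * s i * t j := by
    rw [Finset.sum_range]
    refine sum_congr rfl (fun i _ => ?_)
    rw [Finset.sum_range]
    refine sum_congr rfl (fun j _ => ?_)
    simp [hx, hy]
  rw [h2] at h1
  exact (ENNReal.ofReal_le_iff_le_toReal hγ).mp h1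

lemma sum_range_antidiagonal {M : Type*} [AddCommMonoid M] (N : ℕ) (F : ℕ × ℕ → M) :
    ∑ m ∈ range N, ∑ p ∈ antidiagonal m, F p =
      ∑ i ∈ range N, ∑ j ∈ range N, if i + j < N then F (i, j) else 0 := by
  rw [← sum_product', ← sum_filter, sum_sigma']
  refine sum_nbij' (fun s => s.2) (fun p => ⟨p.1 + p.2, p⟩) ?_ ?_ ?_ ?_ ?_
  · rintro ⟨m, p⟩ h
    simp only [mem_sigma, mem_range, HasAntidiagonal.mem_antidiagonal] at h
    simp only [mem_filter, mem_product, mem_range]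
    omega
  · rintro p h
    simp only [mem_filter, mem_product, mem_range] at h
    simp only [mem_sigma, mem_range, HasAntidiagonal.mem_antidiagonal]
    exact ⟨h.2, trivial⟩
  · rintro ⟨m, p⟩ h
    simp only [mem_sigma, mem_range, HasAntidiagonal.mem_antidiagonal] at h
    obtain ⟨h1, rfl⟩ := h
    rfl
  · rintro p h
    rfl
  · rintro ⟨m, p⟩ h
    rfl

lemma matConv_bound (γ δ : ℕ → ℕ → ℂ) (hγ : injNorm γ ≠ ⊤) (hδ : injNorm δ ≠ ⊤) :
    injNorm (matConv γ δ) ≤ ENNReal.ofReal 18432 * injNorm γ * injNorm δ := by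
  unfold injNorm
  refine iSup_le (fun N => iSup_le (fun x => iSup_le (fun y => iSup_le (fun hx =>
    iSup_le (fun hy => ?_)))))
  have h1 := tensor (BB_of_injNorm γ hγ N) (BB_of_injNorm δ hδ N)
    (fun i i' => if (i : ℕ) + i' < N then x (i + i') else 0)
    (fun j j' => if (j : ℕ) + j' < N then y (j + j') else 0)
    (fun i i' => by split_ifs; exacts [hx _, by simp])
    (fun j j' => by split_ifs; exacts [hy _, by simp])
  have h2 : ∑ m ∈ range N, ∑ k ∈ range N, matConv γ δ m k * x m * y k =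
      ∑ i : Fin N, ∑ j : Fin N, γ i j * ∑ i' : Fin N, ∑ j' : Fin N, δ i' j' *
        (if (i : ℕ) + i' < N then x (i + i') else 0) *
        (if (j : ℕ) + j' < N then y (j + j') else 0) := by
    have e1 : ∀ m ∈ range N, ∑ k ∈ range N, matConv γ δ m k * x m * y k =
        ∑ p ∈ antidiagonal m, ∑ k ∈ range N, ∑ q ∈ antidiagonal k,
          γ p.1 q.1 * δ p.2 q.2 * x (p.1 + p.2) * y (q.1 + q.2) := by
      intro m _
      rw [sum_comm]
      refine sum_congr rfl (fun k _ => ?_)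
      rw [matConv, sum_mul, sum_mul]
      refine sum_congr rfl (fun p hp => ?_)
      rw [sum_mul, sum_mul]
      refine sum_congr rfl (fun q hq => ?_)
      rw [HasAntidiagonal.mem_antidiagonal.mp hp, HasAntidiagonal.mem_antidiagonal.mp hq]
    rw [sum_congr rfl e1, sum_range_antidiagonal]
    rw [Finset.sum_range]
    refine sum_congr rfl (fun i _ => ?_)
    -- left: sum over i' then (k,q)
    have e2 : ∀ i' ∈ range N, (if (i : ℕ) + i' < N then ∑ k ∈ range N, ∑ q ∈ antidiagonal k,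
          γ (i : ℕ) q.1 * δ i' q.2 * x (i + i') * y (q.1 + q.2) else 0) =
        ∑ j ∈ range N, ∑ j' ∈ range N, γ (i : ℕ) j * (δ i' j' *
          (if (i : ℕ) + i' < N then x (i + i') else 0) * (if j + j' < N then y (j + j') else 0)) := by
      intro i' _
      split_ifs with h
      · rw [sum_range_antidiagonal]
        refine sum_congr rfl (fun j _ => sum_congr rfl (fun j' _ => ?_))
        split_ifs
        · ring
        · ring
      · symm
        refine sum_eq_zero (fun j _ => sum_eq_zero (fun j' _ => ?_))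
        ring
    rw [sum_congr rfl e2, sum_comm, Finset.sum_range]
    refine sum_congr rfl (fun j _ => ?_)
    rw [mul_sum, Finset.sum_range]
    refine sum_congr rfl (fun i' _ => ?_)
    rw [mul_sum, Finset.sum_range]
  change ENNReal.ofReal ‖∑ m ∈ range N, ∑ k ∈ range N, matConv γ δ m k * x m * y k‖ ≤
    ENNReal.ofReal 18432 * injNorm γ * injNorm δ
  rw [h2]
  refine (ENNReal.ofReal_le_ofReal h1).trans (le_of_eq ?_)
  rw [ENNReal.ofReal_mul (by positivity), ENNReal.ofReal_mul (by norm_num),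
    ENNReal.ofReal_toReal hγ, ENNReal.ofReal_toReal hδ]

lemma matConv_antidiagonal (γ δ : ℕ → ℕ → ℂ) (n : ℕ) :
    ∑ s ∈ antidiagonal n, matConv γ δ s.1 s.2 =
      ∑ s ∈ antidiagonal n, (∑ p ∈ antidiagonal s.1, γ p.1 p.2) *
        (∑ q ∈ antidiagonal s.2, δ q.1 q.2) := by
  have e1 : ∀ s ∈ antidiagonal n, matConv γ δ s.1 s.2 =
      ∑ r ∈ antidiagonal s.1 ×ˢ antidiagonal s.2, γ r.1.1 r.2.1 * δ r.1.2 r.2.2 := by
    intro s _
    rw [matConv, ← sum_product']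
  have e2 : ∀ s ∈ antidiagonal n, (∑ p ∈ antidiagonal s.1, γ p.1 p.2) *
        (∑ q ∈ antidiagonal s.2, δ q.1 q.2) =
      ∑ r ∈ antidiagonal s.1 ×ˢ antidiagonal s.2, γ r.1.1 r.1.2 * δ r.2.1 r.2.2 := by
    intro s _
    rw [sum_mul_sum, ← sum_product']
  rw [sum_congr rfl e1, sum_congr rfl e2, sum_sigma', sum_sigma']
  refine sum_nbij'
    (fun t => ⟨(t.2.1.1 + t.2.2.1, t.2.1.2 + t.2.2.2), ((t.2.1.1, t.2.2.1), (t.2.1.2, t.2.2.2))⟩)
    (fun t => ⟨(t.2.1.1 + t.2.2.1, t.2.1.2 + t.2.2.2), ((t.2.1.1, t.2.2.1), (t.2.1.2, t.2.2.2))⟩)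
    ?_ ?_ ?_ ?_ ?_
  · rintro ⟨s, r⟩ h
    simp only [mem_sigma, HasAntidiagonal.mem_antidiagonal, mem_product] at h ⊢
    exact ⟨by omega, trivial, trivial⟩
  · rintro ⟨s, r⟩ h
    simp only [mem_sigma, HasAntidiagonal.mem_antidiagonal, mem_product] at h ⊢
    exact ⟨by omega, trivial, trivial⟩
  · rintro ⟨⟨s1, s2⟩, ⟨⟨a, b⟩, ⟨c, d⟩⟩⟩ h
    simp only [mem_sigma, HasAntidiagonal.mem_antidiagonal, mem_product] at h
    obtain ⟨h1, h2, h3⟩ := h
    subst h2 h3
    rfl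
  · rintro ⟨⟨s1, s2⟩, ⟨⟨a, b⟩, ⟨c, d⟩⟩⟩ h
    simp only [mem_sigma, HasAntidiagonal.mem_antidiagonal, mem_product] at h
    obtain ⟨h1, h2, h3⟩ := h
    subst h2 h3
    rfl
  · rintro ⟨⟨s1, s2⟩, ⟨⟨a, b⟩, ⟨c, d⟩⟩⟩ h
    rfl

lemma Represents.mulConv {γ δ : ℕ → ℕ → ℂ} {φ ψ : ℂ → ℂ} (hγ : Represents γ φ)
    (hδ : Represents δ ψ) : Represents (matConv γ δ) (φ * ψ) := by
  intro z hz
  have h1 := hγ z hz
  have h2 := hδ z hz
  have s1 := h1.summable.norm
  have s2 := h2.summable.norm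
  have h3 := tsum_mul_tsum_eq_tsum_sum_antidiagonal_of_summable_norm s1 s2
  have s3 := summable_norm_sum_mul_antidiagonal_of_summable_norm s1 s2
  have h4 := s3.of_norm.hasSum
  rw [← h3, h1.tsum_eq, h2.tsum_eq] at h4
  rw [Pi.mul_apply]
  have e : (fun n => (∑ p ∈ antidiagonal n, matConv γ δ p.1 p.2) * z ^ n) =
      fun n => ∑ kl ∈ antidiagonal n, (∑ p ∈ antidiagonal kl.1, γ p.1 p.2) * z ^ kl.1 *
          ((∑ p ∈ antidiagonal kl.2, δ p.1 p.2) * z ^ kl.2) := by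
    ext n
    rw [matConv_antidiagonal, sum_mul]
    refine sum_congr rfl (fun s hs => ?_)
    rw [← HasAntidiagonal.mem_antidiagonal.mp hs, pow_add]
    ring
  rw [e]
  exact h4

/-- **`𝓛` is a Banach algebra under pointwise multiplication.** -/
theorem result : ∃ C : ℝ, 0 < C ∧ ∀ φ ψ : ℂ → ℂ, normL φ < ⊤ → normL ψ < ⊤ →
    normL (φ * ψ) < ⊤ ∧ normL (φ * ψ) ≤ ENNReal.ofReal C * normL φ * normL ψ := by
  refine ⟨18432, by norm_num, fun φ ψ hφ hψ => ?_⟩
  have key : ∀ a > normL φ, ∀ b > normL ψ, normL (φ * ψ) ≤ ENNReal.ofReal 18432 * a * b := by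
    intro a ha b hb
    obtain ⟨γ, hγ⟩ := iInf_lt_iff.mp ha
    obtain ⟨hγr, hγ⟩ := iInf_lt_iff.mp hγ
    obtain ⟨δ, hδ⟩ := iInf_lt_iff.mp hb
    obtain ⟨hδr, hδ⟩ := iInf_lt_iff.mp hδ
    have h1 : normL (φ * ψ) ≤ injNorm (matConv γ δ) :=
      iInf_le_of_le _ (iInf_le _ (hγr.mulConv hδr))
    refine h1.trans ((matConv_bound γ δ hγ.ne_top hδ.ne_top).trans ?_)
    gcongr
  have hle : normL (φ * ψ) ≤ ENNReal.ofReal 18432 * normL φ * normL ψ := by
    have hC0 : ENNReal.ofReal 18432 ≠ 0 := by simp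
    have hCt : ENNReal.ofReal 18432 ≠ ⊤ := ENNReal.ofReal_ne_top
    refine ENNReal.le_mul_of_forall_lt (Or.inr hψ.ne) (Or.inl (ENNReal.mul_ne_top hCt hφ.ne)) ?_
    intro a ha b hb
    have h1 : normL φ < a / ENNReal.ofReal 18432 := by
      rw [ENNReal.lt_div_iff_mul_lt (Or.inl hC0) (Or.inl hCt), mul_comm]
      exact ha
    have h2 := key _ h1 b hb
    rwa [ENNReal.mul_div_cancel hC0 hCt] at h2
  refine ⟨lt_of_le_of_lt hle ?_, hle⟩
  exact ENNReal.mul_lt_top (ENNReal.mul_lt_top ENNReal.ofReal_lt_top hφ) hψ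

end Pool.Agent.Results.MP_20ef18_an.LIsBanachAlgebra
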